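import Pool.Agent.H30.EE.TargetsP

/-!
# MP_70ba79_ag: module P3A of the board `ee_modules`

If `J (2 a - 1)` and the multiples of a constant linear form span all forms of degree `2 a - 1`,
then the same holds in every larger degree, and the codimension of `J m` does not increase with `m`
for `m ≥ 2 a - 2`. This contradicts the bound for the codimension of `J (2 a - 2)`.
-/

set_option autoImplicit false

namespace Pool.Agent.H11.EE

open MvPolynomial SC Pool.Agent.H27.LV Pool.Agent.H17.VG Pool.Agent.H30.EE

/-- linear algebra: codimensions under a linear map -/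
lemma codim_le {K V : Type} [Field K] [AddCommGroup V] [Module K V] (S S' J J' : Submodule K V)
    [FiniteDimensional K S] [FiniteDimensional K S'] (L : V →ₗ[K] V) (hJ : J ≤ S) (hJ' : J' ≤ S')
    (h1 : S' ≤ J' ⊔ S.map L) (h2 : J.map L ≤ J') :
    Module.finrank K S' + Module.finrank K J ≤ Module.finrank K S + Module.finrank K J' := by
  have fJ : FiniteDimensional K J := Submodule.finiteDimensional_of_le hJ
  have fJ' : FiniteDimensional K J' := Submodule.finiteDimensional_of_le hJ'
  obtain ⟨C, hC⟩ := Submodule.exists_isCompl J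
  have fC : FiniteDimensional K ↥(C ⊓ S) := Submodule.finiteDimensional_of_le inf_le_right
  have hS : J ⊔ (C ⊓ S) = S := by
    rw [← sup_inf_assoc_of_le C hJ, hC.sup_eq_top, top_inf_eq]
  have hI : J ⊓ (C ⊓ S) = ⊥ := by
    rw [← inf_assoc, hC.inf_eq_bot, bot_inf_eq]
  have e1 := Submodule.finrank_sup_add_finrank_inf_eq J (C ⊓ S)
  rw [hS, hI, finrank_bot] at e1
  have fM : FiniteDimensional K ↥((C ⊓ S).map L) := inferInstance
  have h3 : S' ≤ J' ⊔ (C ⊓ S).map L := by
    refine h1.trans ?_
    rw [← hS, Submodule.map_sup, hS]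
    refine sup_le le_sup_left (sup_le (h2.trans le_sup_left) le_sup_right)
  have h4 := Submodule.finrank_mono h3
  have h5 := Submodule.finrank_add_le_finrank_add_finrank J' ((C ⊓ S).map L)
  have h6 := Submodule.finrank_map_le L (C ⊓ S)
  omega

section

variable {k K : Type} [Field k] [Field K] [Algebra k K] {n : ℕ}

/-- every form of degree `m + 1` is a sum of products of variables and forms of degree `m` -/
lemma mem_of_X_mul (m : ℕ) (N : Submodule K (MvPolynomial (Fin (n + 1)) K))
    (h : ∀ i, ∀ H ∈ Sd K n m, (X i : MvPolynomial (Fin (n + 1)) K) * H ∈ N) :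
    Sd K n (m + 1) ≤ N := by
  classical
  intro G hG
  rw [mem_homogeneousSubmodule] at hG
  rw [← G.support_sum_monomial_coeff]
  refine Submodule.sum_mem _ fun s hs => ?_
  have hd : s.degree = m + 1 := by
    have := hG (mem_support_iff.1 hs)
    rw [← this, Finsupp.degree_eq_weight_one]
    rfl
  have hne : ∃ i, s i ≠ 0 := by
    by_contra hcon
    push Not at hcon
    have h0 : s = 0 := Finsupp.ext fun i => hcon i
    rw [h0, map_zero] at hd
    omega
  obtain ⟨i, hi⟩ := hne
  have hle : Finsupp.single i 1 ≤ s := by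
    rw [Finsupp.single_le_iff]
    omega
  have hs' : Finsupp.single i 1 + (s - Finsupp.single i 1) = s := add_tsub_cancel_of_le hle
  have hmul : (X i : MvPolynomial (Fin (n + 1)) K) * monomial (s - Finsupp.single i 1) (coeff s G)
      = monomial s (coeff s G) := by
    rw [X, monomial_mul, hs', one_mul]
  rw [← hmul]
  refine h i _ ?_
  rw [mem_homogeneousSubmodule]
  refine isHomogeneous_monomial _ ?_
  have h1 : (Finsupp.single i 1 + (s - Finsupp.single i 1)).degree = m + 1 := by rw [hs', hd]
  rw [map_add, Finsupp.degree_single] at h1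
  omega

lemma lin_ul (l : Fin (n + 1) → k) : lin (ul K l) = up K (lin l) := by
  unfold lin ul up
  rw [map_sum]
  refine Finset.sum_congr rfl fun i _ => ?_
  rw [map_mul, map_C, map_X]

lemma lin_ne_zero (l : Fin (n + 1) → k) (hl : l ≠ 0) :
    (lin l : MvPolynomial (Fin (n + 1)) k) ≠ 0 := by
  classical
  intro h
  apply hl
  funext i
  have h1 : coeff (Finsupp.single i 1) (lin l) = l i := by
    unfold lin
    rw [coeff_sum, Finset.sum_eq_single i]
    · rw [coeff_C_mul, coeff_X, if_pos rfl, mul_one]
    · intro j _ hj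
      rw [coeff_C_mul, coeff_X, if_neg, mul_zero]
      intro h2
      exact hj (Finsupp.single_left_injective one_ne_zero h2)
    · intro h2
      exact absurd (Finset.mem_univ i) h2
  rw [← h1, h]
  simp

end

/-- P3A: (3a) -/
theorem pf_P3A (hJML : T_JML) (hJCO : T_JCO) (hDSP : T_DSP) : T_P3A := by
  intro k K _ _ _ _ _ _ htr n a d x μ J hx hμ hJ ha had hlt l hcon
  have fin : ∀ m, FiniteDimensional K (Sd K n m) := by
    intro m
    have h1 := ((hDSP k K htr n m).2.2.2.2.2 x hx).2
    exact Module.finite_of_finrank_pos (by omega)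
  have hJS : ∀ m, J m ≤ Sd K n m := fun m => (hJ m).le.trans inf_le_left
  obtain ⟨c, rfl⟩ : ∃ c, a = c + 1 := ⟨a - 1, by omega⟩
  have e1 : 2 * (c + 1) - 1 = 2 * c + 1 := by omega
  have e2 : 2 * (c + 1) - 2 = 2 * c := by omega
  rw [e1, e2] at hcon
  -- products with constant linear forms
  have hJl : ∀ m, mulW (lin (ul K l)) (J m) ≤ J (m + 1) := by
    intro m
    by_cases hl : l = 0
    · rintro _ ⟨G, _, rfl⟩
      have h0 : lin (ul K l) = 0 := by
        unfold lin ul
        refine Finset.sum_eq_zero fun i _ => ?_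
        rw [hl, Pi.zero_apply, map_zero, C_0, zero_mul]
      rw [h0, LinearMap.mulLeft_apply, zero_mul]
      exact Submodule.zero_mem _
    · rw [lin_ul]
      exact hJML k K htr n m 1 x μ (J m) (J (m + 1)) hx (hJ m) (hJ (m + 1)) (lin l)
        (lin_ne_zero l hl) (isHomogeneous_lin l)
  have hJX : ∀ m i, ∀ G ∈ J m, (X i : MvPolynomial (Fin (n + 1)) K) * G ∈ J (m + 1) := by
    intro m i G hG
    have h1 := hJML k K htr n m 1 x μ (J m) (J (m + 1)) hx (hJ m) (hJ (m + 1)) (X i)
      (X_ne_zero i) (isHomogeneous_X k i)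
    have h2 : up K (X i : MvPolynomial (Fin (n + 1)) k) = X i := by
      unfold up
      rw [map_X]
    rw [h2] at h1
    exact h1 ⟨G, hG, rfl⟩
  -- the spaces span in every degree
  have hspan : ∀ t, Sd K n (2 * c + t + 1) ≤
      J (2 * c + t + 1) ⊔ mulW (lin (ul K l)) (Sd K n (2 * c + t)) := by
    intro t
    induction t with
    | zero => rw [add_zero]; exact hcon.ge
    | succ t ih =>
      refine mem_of_X_mul _ _ fun i H hH => ?_
      obtain ⟨j, hj, q, ⟨p, hp, rfl⟩, rfl⟩ := Submodule.mem_sup.1 (ih hH)
      rw [mul_add]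
      refine Submodule.add_mem_sup (hJX _ i j hj) ?_
      refine ⟨X i * p, ?_, ?_⟩
      · have hp' := (mem_homogeneousSubmodule _ _).1 hp
        have := (isHomogeneous_X K i).mul hp'
        rw [SetLike.mem_coe, mem_homogeneousSubmodule]
        rw [add_comm 1] at this
        exact this
      · rw [LinearMap.mulLeft_apply, LinearMap.mulLeft_apply]
        ring
  -- codimensions decrease
  have hcod : ∀ t, (Module.finrank K (Sd K n (2 * c + t)) : ℤ) - Module.finrank K (J (2 * c + t)) ≤
      Module.finrank K (Sd K n (2 * c)) - Module.finrank K (J (2 * c)) := by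
    intro t
    induction t with
    | zero => rw [add_zero]
    | succ t ih =>
      have f1 := fin (2 * c + t)
      have f2 := fin (2 * c + t + 1)
      have := codim_le (Sd K n (2 * c + t)) (Sd K n (2 * c + t + 1)) (J (2 * c + t))
        (J (2 * c + t + 1)) (LinearMap.mulLeft K (lin (ul K l))) (hJS _) (hJS _) (hspan t)
        (hJl _)
      rw [← add_assoc]
      omega
  have h3 := hcod (d - 2 * c)
  rw [show 2 * c + (d - 2 * c) = d by omega] at h3
  have h4 := hJCO k K htr n (2 * c) x μ (J (2 * c)) hx hμ.le (hJ _)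
  have h5 : ((Module.finrank K (Sd K n d) : ℚ) - Module.finrank K (J d)) ≤
      (Module.finrank K (Sd K n (2 * c)) : ℚ) - Module.finrank K (J (2 * c)) := by
    exact_mod_cast h3
  have h6 := mul_le_mul_of_nonneg_left h5 hμ.le
  push_cast at hlt h4
  have h7 : (2 * ((c : ℚ) + 1) - 2) * (hgt k x : ℚ) = 2 * (c : ℚ) * hgt k x := by ring
  rw [h7] at hlt
  linarith

end Pool.Agent.H11.EE
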